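import Pool.Agent.helper74.TG.Defs

/-!
# GNU project (MP_d11331_al), analytic part wt:1: the coefficients of the Ramanujan model
-/

namespace Pool.Agent.helper74.TG

open Finset ArithmeticFunction

private theorem ee_add (x y : ℝ) : ee (x + y) = ee x * ee y := by
  rw [ee, ee, ee, ← Complex.exp_add]
  congr 1
  push_cast
  ring

private theorem ee_zero : ee 0 = 1 := by simp [ee]

private theorem ee_norm (x : ℝ) : ‖ee x‖ = 1 := by
  rw [ee, show (2 * Real.pi * x * Complex.I : ℂ) = ((2 * Real.pi * x : ℝ) : ℂ) * Complex.I by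
    push_cast; ring]
  exact Complex.norm_exp_ofReal_mul_I _

private theorem ee_eq_one {x : ℝ} (h : ee x = 1) : ∃ n : ℤ, x = n := by
  rw [ee, Complex.exp_eq_one_iff] at h
  obtain ⟨n, hn⟩ := h
  refine ⟨n, ?_⟩
  have h2 : (2 * Real.pi * Complex.I : ℂ) ≠ 0 := Complex.two_pi_I_ne_zero
  have h3 : ((x : ℂ) - n) * (2 * Real.pi * Complex.I) = 0 := by
    linear_combination hn
  rcases mul_eq_zero.1 h3 with h4 | h4
  · have : (x : ℂ) = ((n : ℝ) : ℂ) := by push_cast; linear_combination h4
    exact_mod_cast this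
  · exact absurd h4 h2

private theorem ee_neg_int (n : ℕ) : ee (-(n : ℝ)) = 1 := by
  rw [ee, Complex.exp_eq_one_iff]
  exact ⟨-n, by push_cast; ring⟩

private theorem ee_ne_one {a h q : ℕ} (hq : 0 < q) (hh : h ∣ q) (hlt : h < q)
    (ha : Nat.Coprime a q) : ee (-(a * h / q : ℝ)) ≠ 1 := by
  intro he
  obtain ⟨n, hn⟩ := ee_eq_one he
  have hq' : (q : ℝ) ≠ 0 := by positivity
  have h1 : (a * h : ℝ) = -n * q := by
    field_simp at hn
    linarith
  have h2 : ((a * h : ℕ) : ℤ) = -n * q := by exact_mod_cast h1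
  have h3 : (q : ℤ) ∣ ((a * h : ℕ) : ℤ) := ⟨-n, by rw [h2]; ring⟩
  have h4 : q ∣ a * h := by exact_mod_cast h3
  have h5 : q ∣ h := (Nat.Coprime.symm ha).dvd_of_dvd_mul_left h4
  have hpos : 0 < h := Nat.pos_of_dvd_of_pos hh hq
  exact absurd (Nat.le_of_dvd hpos h5) (by omega)

private theorem sum_shift {q : ℕ} (f : ℕ → ℂ) (hf : ∀ t, f (t + q) = f t) (h : ℕ) :
    ∑ t ∈ range q, f (t + h) = ∑ t ∈ range q, f t := by
  induction h with
  | zero => rfl
  | succ h ih =>
    rw [← ih]
    have h1 := Finset.sum_range_succ (fun t => f (t + h)) q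
    have h2 := Finset.sum_range_succ' (fun t => f (t + h)) q
    rw [h1] at h2
    have h3 : f (q + h) = f (0 + h) := by
      rw [add_comm q h, hf, zero_add]
    rw [h3] at h2
    have h4 : ∀ t, f (t + 1 + h) = f (t + (h + 1)) := fun t => by
      congr 1; ring
    simp only [h4] at h2
    exact (add_right_cancel h2).symm

/-- The shift argument. -/
private theorem shift_zero {a h q : ℕ} (hq : 0 < q) (hh : h ∣ q) (hlt : h < q)
    (ha : Nat.Coprime a q) (P : ℕ → Prop) [DecidablePred P] (hPq : ∀ t, P (t + q) ↔ P t)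
    (hPh : ∀ t, P (t + h) ↔ P t) :
    ∑ t ∈ range q with P t, ee (-(a * t / q : ℝ)) = 0 := by
  have hq' : (q : ℝ) ≠ 0 := by positivity
  rw [Finset.sum_filter]
  set f : ℕ → ℂ := fun t => if P t then ee (-(a * t / q : ℝ)) else 0 with hf
  have hper : ∀ t, f (t + q) = f t := by
    intro t
    simp only [hf, hPq]
    split_ifs with hP
    · rw [show (-(a * (t + q : ℕ) / q : ℝ)) = -(a * t / q) + -(a : ℝ) by
        push_cast; field_simp; ring, ee_add, ee_neg_int, mul_one]
    · rfl
  have hsh : ∀ t, f (t + h) = f t * ee (-(a * h / q : ℝ)) := by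
    intro t
    simp only [hf, hPh]
    split_ifs with hP
    · rw [← ee_add]
      congr 1
      push_cast
      field_simp
      ring
    · rw [zero_mul]
  have h1 := sum_shift f hper h
  simp only [hsh] at h1
  rw [← Finset.sum_mul] at h1
  have h2 : (∑ t ∈ range q, f t) * (ee (-(a * h / q : ℝ)) - 1) = 0 := by
    rw [mul_sub, h1, mul_one, sub_self]
  rcases mul_eq_zero.1 h2 with h3 | h3
  · exact h3
  · exact absurd (sub_eq_zero.1 h3) (ee_ne_one hq hh hlt ha)

/-- wt:1: the coefficients. -/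
theorem Hc_one (m c : ℕ) (hm : 0 < m) : Hc m c 0 1 = 1 := by
  have h1 : (Nat.totient m : ℝ) ≠ 0 := by
    have := Nat.totient_pos.2 hm
    positivity
  have h2 : (Finset.range 1).filter (fun t => Nat.Coprime (m * t + c) 1) = {0} := by
    ext t; simp
  rw [Hc, h2]
  simp [ee_zero, h1]

/-- wt:1 -/
theorem Hc_zero (m c a q : ℕ) (hm : 0 < m) (hq : 0 < q) (ha : Nat.Coprime a q)
    (h : ¬ Nat.Coprime q m ∨ ¬ Squarefree q) : Hc m c a q = 0 := by
  have key : ∃ p : ℕ, p.Prime ∧ p ∣ q ∧ ∀ l : ℕ, l.Prime → l ∣ q → l ∣ m * (q / p) := by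
    rcases h with h | h
    · obtain ⟨p, hp, h1, h2⟩ := Nat.Prime.not_coprime_iff_dvd.1 h
      refine ⟨p, hp, h1, fun l _ hl => ?_⟩
      obtain ⟨m', rfl⟩ := h2
      have : p * m' * (q / p) = m' * q := by
        rw [mul_comm p m', mul_assoc, Nat.mul_div_cancel' h1]
      rw [this]
      exact Dvd.dvd.mul_left hl m'
    · rw [Nat.squarefree_iff_prime_squarefree] at h
      push Not at h
      obtain ⟨p, hp, h1⟩ := h
      have hpq : p ∣ q := dvd_trans (dvd_mul_right p p) h1
      refine ⟨p, hp, hpq, fun l hl hlq => Dvd.dvd.mul_left ?_ m⟩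
      have h2 : p ∣ q / p := by
        obtain ⟨k, rfl⟩ := h1
        rw [mul_assoc, Nat.mul_div_cancel_left _ hp.pos]
        exact dvd_mul_right p k
      by_cases hlp : l = p
      · rw [hlp]; exact h2
      · have h3 : l ∣ p * (q / p) := by rw [Nat.mul_div_cancel' hpq]; exact hlq
        rcases hl.dvd_mul.1 h3 with h4 | h4
        · exact absurd ((Nat.prime_dvd_prime_iff_eq hl hp).1 h4) hlp
        · exact h4
  obtain ⟨p, hp, hpq, hl⟩ := key
  have hS : ∑ t ∈ range q with Nat.Coprime (m * t + c) q, ee (-(a * t / q : ℝ)) = 0 := by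
    refine shift_zero hq (Nat.div_dvd_of_dvd hpq) (Nat.div_lt_self hq hp.one_lt) ha _ ?_ ?_
    · intro t
      rw [show m * (t + q) + c = m * t + c + m * q by ring, Nat.coprime_add_mul_right_left]
    · intro t
      rw [show m * (t + q / p) + c = m * t + c + m * (q / p) by ring]
      rw [← not_iff_not, Nat.Prime.not_coprime_iff_dvd, Nat.Prime.not_coprime_iff_dvd]
      constructor
      · rintro ⟨l, h1, h2, h3⟩
        exact ⟨l, h1, (Nat.dvd_add_left (hl l h1 h3)).1 h2, h3⟩
      · rintro ⟨l, h1, h2, h3⟩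
        exact ⟨l, h1, (Nat.dvd_add_left (hl l h1 h3)).2 h2, h3⟩
  rw [Hc, hS, mul_zero]

private theorem coprime_moebius (n q : ℕ) (hq : 0 < q) :
    (if Nat.Coprime n q then (1 : ℂ) else 0) =
      ∑ d ∈ q.divisors, if d ∣ n then ((moebius d : ℤ) : ℂ) else 0 := by
  have h1 : q.divisors.filter (fun d => d ∣ n) = (Nat.gcd n q).divisors := by
    ext d
    simp only [mem_filter, Nat.mem_divisors]
    constructor
    · rintro ⟨⟨h1, h2⟩, h3⟩
      exact ⟨Nat.dvd_gcd h3 h1, fun h => h2 (Nat.eq_zero_of_gcd_eq_zero_right h)⟩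
    · rintro ⟨h1, h2⟩
      exact ⟨⟨h1.trans (Nat.gcd_dvd_right n q), hq.ne'⟩, h1.trans (Nat.gcd_dvd_left n q)⟩
  rw [← Finset.sum_filter, h1]
  have h2 : (∑ d ∈ (Nat.gcd n q).divisors, moebius d : ℤ) = if Nat.gcd n q = 1 then 1 else 0 := by
    have := congrArg (fun f : ArithmeticFunction ℤ => f (Nat.gcd n q)) moebius_mul_coe_zeta
    simp only [coe_mul_zeta_apply, one_apply] at this
    exact this
  rw [← Int.cast_sum, h2]
  by_cases h3 : Nat.gcd n q = 1 <;> simp [Nat.Coprime, h3]

/-- wt:1 -/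
theorem Hc_bound (m c a q : ℕ) (hm : 0 < m) (hq : 0 < q) (ha : Nat.Coprime a q) :
    ‖Hc m c a q‖ ≤ 1 / (Nat.totient q : ℝ) := by
  by_cases hqm : Nat.Coprime q m
  swap
  · rw [Hc_zero m c a q hm hq ha (Or.inl hqm), norm_zero]
    positivity
  have hS : ‖∑ t ∈ range q with Nat.Coprime (m * t + c) q, ee (-(a * t / q : ℝ))‖ ≤ 1 := by
    have h1 : ∑ t ∈ range q with Nat.Coprime (m * t + c) q, ee (-(a * t / q : ℝ)) =
        ∑ d ∈ q.divisors, ((moebius d : ℤ) : ℂ) *
          ∑ t ∈ range q with d ∣ m * t + c, ee (-(a * t / q : ℝ)) := by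
      rw [Finset.sum_filter]
      have : ∀ t ∈ range q, (if Nat.Coprime (m * t + c) q then ee (-(a * t / q : ℝ)) else 0) =
          ∑ d ∈ q.divisors, (if d ∣ m * t + c then ((moebius d : ℤ) : ℂ) *
            ee (-(a * t / q : ℝ)) else 0) := by
        intro t _
        have h2 := coprime_moebius (m * t + c) q hq
        calc (if Nat.Coprime (m * t + c) q then ee (-(a * t / q : ℝ)) else 0)
            = (if Nat.Coprime (m * t + c) q then (1 : ℂ) else 0) * ee (-(a * t / q : ℝ)) := by
              split_ifs <;> simp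
          _ = _ := by
              rw [h2, Finset.sum_mul]
              refine Finset.sum_congr rfl fun d _ => ?_
              split_ifs <;> simp
      rw [Finset.sum_congr rfl this, Finset.sum_comm]
      refine Finset.sum_congr rfl fun d _ => ?_
      rw [Finset.mul_sum, Finset.sum_filter]
    have h2 : ∀ d ∈ q.divisors, d ≠ q → ((moebius d : ℤ) : ℂ) *
          ∑ t ∈ range q with d ∣ m * t + c, ee (-(a * t / q : ℝ)) = 0 := by
      intro d hd hdq
      have hdq' : d ∣ q := Nat.dvd_of_mem_divisors hd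
      rw [shift_zero hq hdq' (lt_of_le_of_ne (Nat.le_of_dvd hq hdq') hdq) ha, mul_zero]
      · intro t
        rw [show m * (t + q) + c = m * t + c + m * q by ring]
        exact Nat.dvd_add_left (Dvd.dvd.mul_left hdq' m)
      · intro t
        rw [show m * (t + d) + c = m * t + c + m * d by ring]
        exact Nat.dvd_add_left (Dvd.dvd.mul_left dvd_rfl m)
    rw [h1, Finset.sum_eq_single q (fun d hd h => h2 d hd h)
      (fun h => absurd (Nat.mem_divisors_self q hq.ne') h), norm_mul]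
    have h3 : ‖((moebius q : ℤ) : ℂ)‖ ≤ 1 := by
      rw [Complex.norm_intCast]
      have := abs_moebius_le_one (n := q)
      exact_mod_cast this
    have h4 : ‖∑ t ∈ range q with q ∣ m * t + c, ee (-(a * t / q : ℝ))‖ ≤ 1 := by
      have hcard : ((range q).filter fun t => q ∣ m * t + c).card ≤ 1 := by
        rw [Finset.card_le_one]
        intro s hs t ht
        simp only [mem_filter, mem_range] at hs ht
        have e1 : m * s + c ≡ m * t + c [MOD q] :=
          ((Nat.modEq_zero_iff_dvd).2 hs.2).trans ((Nat.modEq_zero_iff_dvd).2 ht.2).symm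
        have e2 : m * s ≡ m * t [MOD q] := Nat.ModEq.add_right_cancel' c e1
        have e3 : s ≡ t [MOD q] := Nat.ModEq.cancel_left_of_coprime hqm e2
        exact Nat.ModEq.eq_of_lt_of_lt e3 hs.1 ht.1
      calc ‖∑ t ∈ range q with q ∣ m * t + c, ee (-(a * t / q : ℝ))‖
          ≤ ∑ t ∈ range q with q ∣ m * t + c, ‖ee (-(a * t / q : ℝ))‖ := norm_sum_le _ _
        _ = ((range q).filter fun t => q ∣ m * t + c).card := by
            simp [ee_norm]
        _ ≤ 1 := by exact_mod_cast hcard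
    calc _ ≤ (1 : ℝ) * 1 := mul_le_mul h3 h4 (norm_nonneg _) zero_le_one
      _ = 1 := one_mul 1
  have hm' : (0 : ℝ) < Nat.totient m := by exact_mod_cast Nat.totient_pos.2 hm
  have hq' : (0 : ℝ) < Nat.totient q := by exact_mod_cast Nat.totient_pos.2 hq
  rw [Hc, norm_mul, Nat.totient_mul hqm.symm]
  have h5 : ‖(((Nat.totient m : ℝ) / ((Nat.totient m * Nat.totient q : ℕ) : ℝ) : ℝ) : ℂ)‖ =
      1 / (Nat.totient q : ℝ) := by
    rw [Complex.norm_real, Real.norm_of_nonneg (by positivity)]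
    push_cast
    field_simp
  rw [h5]
  calc _ ≤ 1 / (Nat.totient q : ℝ) * 1 := mul_le_mul_of_nonneg_left hS (by positivity)
    _ = _ := mul_one _

/-- wt:1: squarefree numbers prime to `6`. -/
theorem totient_lower (q : ℕ) (hq : Squarefree q) (h6 : Nat.Coprime q 6) :
    (q : ℝ) ^ (3 / 4 : ℝ) ≤ Nat.totient q := by
  have hq0 : q ≠ 0 := hq.ne_zero
  have h1 : Nat.totient q = ∏ p ∈ q.primeFactors, (p - 1) := by
    have := Nat.totient_mul_prod_primeFactors q
    rw [Nat.prod_primeFactors_of_squarefree hq, mul_comm] at this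
    exact Nat.eq_of_mul_eq_mul_left (Nat.pos_of_ne_zero hq0) this
  have h2 : q ^ 3 ≤ Nat.totient q ^ 4 := by
    conv_lhs => rw [← Nat.prod_primeFactors_of_squarefree hq]
    rw [h1, ← Finset.prod_pow, ← Finset.prod_pow]
    refine Finset.prod_le_prod' fun p hp => ?_
    have hpp := Nat.prime_of_mem_primeFactors hp
    have hpq := Nat.dvd_of_mem_primeFactors hp
    have h5 : 5 ≤ p := by
      by_contra hlt
      push Not at hlt
      have h2 := hpp.two_le
      have hc : Nat.Coprime p 6 := Nat.Coprime.coprime_dvd_left hpq h6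
      interval_cases p
      · exact absurd hc (by decide)
      · exact absurd hc (by decide)
      · exact absurd hpp (by decide)
    obtain ⟨k, rfl⟩ : ∃ k, p = k + 5 := ⟨p - 5, by omega⟩
    simp only [show k + 5 - 1 = k + 4 by omega]
    nlinarith [sq_nonneg k, mul_nonneg (Nat.zero_le k) (Nat.zero_le (k ^ 2))]
  have h3 : ((q : ℝ) ^ 3) ≤ (Nat.totient q : ℝ) ^ 4 := by exact_mod_cast h2
  have h4 : (q : ℝ) ^ (3 / 4 : ℝ) = ((q : ℝ) ^ 3) ^ (1 / 4 : ℝ) := by
    rw [← Real.rpow_natCast, ← Real.rpow_mul (by positivity)]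
    norm_num
  have h5 : (Nat.totient q : ℝ) = ((Nat.totient q : ℝ) ^ 4) ^ (1 / 4 : ℝ) := by
    rw [← Real.rpow_natCast, ← Real.rpow_mul (by positivity)]
    norm_num
  rw [h4, h5]
  exact Real.rpow_le_rpow (by positivity) h3 (by norm_num)

end Pool.Agent.helper74.TG
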