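import Pool.Agent.helper24.TG.S4

set_option linter.all false
set_option autoImplicit false

/-!
Module EXI: existence of voltages and labellings with all properties (MP_ce98d8_co).
-/

namespace Pool.Agent.helper24.TG

open Finset Classical
open Pool.Agent.helper11.Tight (nb eo mem_nb)

/-- number of elements with a property -/
noncomputable def EXI_cnt {α : Type} (S : Finset α) (R : α → Prop) : ℕ := (S.filter R).card

theorem EXI_mem {α : Type} {S : Finset α} {R : α → Prop} {i : DecidablePred R} {x : α} :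
    x ∈ @Finset.filter α R i S ↔ x ∈ S ∧ R x := Finset.mem_filter

theorem EXI_cnt_le {α : Type} (S : Finset α) (R : α → Prop) (i : DecidablePred R) (K L : ℕ)
    (h : (@Finset.filter α R i S).card * K ≤ L) : EXI_cnt S R * K ≤ L := by
  have h1 : (@Finset.filter α R i S).card = EXI_cnt S R := by
    unfold EXI_cnt
    congr
  rwa [← h1]

theorem EXI_mono {α : Type} (S : Finset α) (R R' : α → Prop) (h : ∀ x ∈ S, R x → R' x) :
    EXI_cnt S R ≤ EXI_cnt S R' := by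
  unfold EXI_cnt
  apply Finset.card_le_card
  intro x hx
  obtain ⟨h1, h2⟩ := Finset.mem_filter.1 hx
  exact Finset.mem_filter.2 ⟨h1, h x h1 h2⟩

theorem EXI_or {α : Type} (S : Finset α) (R R' : α → Prop) :
    EXI_cnt S (fun x => R x ∨ R' x) ≤ EXI_cnt S R + EXI_cnt S R' := by
  unfold EXI_cnt
  refine (Finset.card_le_card ?_).trans (Finset.card_union_le _ _)
  intro x hx
  obtain ⟨h1, h2⟩ := EXI_mem.1 hx
  rcases h2 with h2 | h2
  · exact Finset.mem_union_left _ (Finset.mem_filter.2 ⟨h1, h2⟩)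
  · exact Finset.mem_union_right _ (Finset.mem_filter.2 ⟨h1, h2⟩)

theorem EXI_false {α : Type} (S : Finset α) : EXI_cnt S (fun _ => False) = 0 := by
  unfold EXI_cnt
  simp

theorem EXI_true {α : Type} (S : Finset α) (R : α → Prop) (h : ∀ x ∈ S, R x) :
    EXI_cnt S R = S.card := by
  unfold EXI_cnt
  rw [Finset.filter_true_of_mem h]

theorem EXI_and {α : Type} (S : Finset α) (Q : Prop) (R : α → Prop) (K L : ℕ)
    (h : Q → EXI_cnt S R * K ≤ L) : EXI_cnt S (fun x => Q ∧ R x) * K ≤ L := by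
  by_cases hQ : Q
  · have h1 : EXI_cnt S (fun x => Q ∧ R x) ≤ EXI_cnt S R :=
      EXI_mono S _ _ fun x _ hx => hx.2
    exact (Nat.mul_le_mul_right K h1).trans (h hQ)
  · have h1 : EXI_cnt S (fun x => Q ∧ R x) ≤ EXI_cnt S (fun _ => False) :=
      EXI_mono S _ _ fun x _ hx => hQ hx.1
    rw [EXI_false] at h1
    rw [Nat.le_zero.1 h1, Nat.zero_mul]
    exact Nat.zero_le _

theorem EXI_list {α : Type} (S : Finset α) (K : ℕ) (l : List (α → Prop))
    (h : ∀ R ∈ l, EXI_cnt S R * K ≤ S.card) :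
    EXI_cnt S (fun x => ∃ R ∈ l, R x) * K ≤ l.length * S.card := by
  induction l with
  | nil =>
    have h1 : EXI_cnt S (fun x => ∃ R ∈ ([] : List (α → Prop)), R x) ≤
        EXI_cnt S (fun _ => False) := EXI_mono S _ _ fun x _ hx => by
      obtain ⟨R, hR, _⟩ := hx
      exact List.not_mem_nil hR
    rw [EXI_false] at h1
    rw [Nat.le_zero.1 h1, Nat.zero_mul]
    exact Nat.zero_le _
  | cons R l ih =>
    have h1 : EXI_cnt S (fun x => ∃ R' ∈ R :: l, R' x) ≤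
        EXI_cnt S R + EXI_cnt S (fun x => ∃ R' ∈ l, R' x) := by
      refine (EXI_mono S _ (fun x => R x ∨ ∃ R' ∈ l, R' x) ?_).trans (EXI_or S _ _)
      rintro x _ ⟨R', hR', hR'x⟩
      rcases List.mem_cons.1 hR' with h2 | h2
      · left; rw [← h2]; exact hR'x
      · exact Or.inr ⟨R', h2, hR'x⟩
    have h2 := ih (fun R' hR' => h R' (List.mem_cons_of_mem _ hR'))
    have h3 := h R List.mem_cons_self
    calc EXI_cnt S (fun x => ∃ R' ∈ R :: l, R' x) * K
        ≤ (EXI_cnt S R + EXI_cnt S (fun x => ∃ R' ∈ l, R' x)) * K :=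
          Nat.mul_le_mul_right _ h1
      _ = EXI_cnt S R * K + EXI_cnt S (fun x => ∃ R' ∈ l, R' x) * K := by ring
      _ ≤ S.card + l.length * S.card := Nat.add_le_add h3 h2
      _ = (R :: l).length * S.card := by rw [List.length_cons]; ring

theorem EXI_fib1 {α β : Type} (X : Finset α) (Y : Finset β) (R : α → β → Prop) (K : ℕ)
    (h : ∀ v ∈ X, EXI_cnt Y (R v) * K ≤ Y.card) :
    EXI_cnt (X ×ˢ Y) (fun x => R x.1 x.2) * K ≤ (X ×ˢ Y).card := by
  unfold EXI_cnt at h ⊢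
  rw [Finset.card_filter, Finset.sum_product, Finset.card_product, Finset.sum_mul]
  calc ∑ v ∈ X, (∑ w ∈ Y, if R (v, w).1 (v, w).2 then 1 else 0) * K
      ≤ ∑ v ∈ X, Y.card := by
        apply Finset.sum_le_sum
        intro v hv
        have h1 := h v hv
        rw [Finset.card_filter] at h1
        exact h1
    _ = X.card * Y.card := by rw [Finset.sum_const, smul_eq_mul]

theorem EXI_fib2 {α β : Type} (X : Finset α) (Y : Finset β) (R : α → β → Prop) (K : ℕ)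
    (h : ∀ w ∈ Y, EXI_cnt X (fun v => R v w) * K ≤ X.card) :
    EXI_cnt (X ×ˢ Y) (fun x => R x.1 x.2) * K ≤ (X ×ˢ Y).card := by
  unfold EXI_cnt at h ⊢
  rw [Finset.card_filter, Finset.sum_product_right, Finset.card_product, Finset.sum_mul]
  calc ∑ w ∈ Y, (∑ v ∈ X, if R (v, w).1 (v, w).2 then 1 else 0) * K
      ≤ ∑ w ∈ Y, X.card := by
        apply Finset.sum_le_sum
        intro w hw
        have h1 := h w hw
        rw [Finset.card_filter] at h1
        exact h1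
    _ = X.card * Y.card := by rw [Finset.sum_const, smul_eq_mul, mul_comm]

theorem EXI_exists {α : Type} (X : Finset α) (C K : ℕ) (R : Fin C → α → Prop)
    (h : ∀ j, EXI_cnt X (R j) * K ≤ X.card) :
    EXI_cnt X (fun v => ∃ j, R j v) * K ≤ C * X.card := by
  have h1 : EXI_cnt X (fun v => ∃ j, R j v) ≤ ∑ j : Fin C, EXI_cnt X (R j) := by
    unfold EXI_cnt
    refine (Finset.card_le_card ?_).trans Finset.card_biUnion_le
    intro v hv
    obtain ⟨hv1, j, hj⟩ := EXI_mem.1 hv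
    exact Finset.mem_biUnion.2 ⟨j, Finset.mem_univ _, Finset.mem_filter.2 ⟨hv1, hj⟩⟩
  calc _ ≤ (∑ j : Fin C, EXI_cnt X (R j)) * K := Nat.mul_le_mul_right _ h1
    _ = ∑ j : Fin C, EXI_cnt X (R j) * K := by rw [Finset.sum_mul]
    _ ≤ ∑ j : Fin C, X.card := Finset.sum_le_sum fun j _ => h j
    _ = C * X.card := by
        rw [Finset.sum_const, Finset.card_univ, Fintype.card_fin, smul_eq_mul]

theorem EXI_arith (n K C Z : ℕ) (hK : 0 < K) (h1 : 16 * C ≤ K) (h2 : n * K ≤ C * Z) :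
    n * 16 ≤ Z := by
  rcases Nat.eq_zero_or_pos C with hC | hC
  · rw [hC, Nat.zero_mul] at h2
    have h3 : n * K = 0 := Nat.le_zero.1 h2
    rcases Nat.mul_eq_zero.1 h3 with h4 | h4
    · rw [h4, Nat.zero_mul]; exact Nat.zero_le _
    · omega
  · have h3 : C * (n * 16) ≤ C * Z := by
      calc C * (n * 16) = n * (16 * C) := by ring
        _ ≤ n * K := Nat.mul_le_mul_left _ h1
        _ ≤ C * Z := h2
    exact Nat.le_of_mul_le_mul_left h3 hC

theorem EXI_weak (n K Z : ℕ) (h1 : 16 ≤ K) (h2 : n * K ≤ Z) : n * 16 ≤ Z :=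
  (Nat.mul_le_mul_left n h1).trans h2

theorem EXI (hVS7 : VS7_stmt) (hLB5 : LB5_stmt) (hHP1 : HP1_stmt) (hHP2 : HP2_stmt)
    (hHP3 : HP3_stmt) (hHP4 : HP4_stmt) (hHP6 : HP6_stmt) (hPP1 : PP1_stmt) (hPP2 : PP2_stmt)
    (hPP3 : PP3_stmt) (hPP4 : PP4_stmt) (hPP4c : PP4c_stmt) (hPP5 : PP5_stmt)
    (hRG2 : RG2_stmt) (hQ2f : Q2f_stmt) (hQ3f : Q3f_stmt) (hQ4f : Q4f_stmt) : Exist_stmt := by
  intro p P O A V _ _ _ _ _ _ _ _ _ H T MM hA h2 hT
  -- numbers
  have hLam : 1 ≤ p.Lam := p.hLam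
  have hc1 : 1 ≤ p.c := by
    have h := p.hLog
    omega
  have hq1 : 1 ≤ p.q := by
    obtain ⟨h, hh⟩ := p.hsq
    rw [p.hq, hh]
    exact Nat.one_le_iff_ne_zero.2 (by positivity)
  have hB1 : 1 ≤ p.B := by
    obtain ⟨b, hb⟩ := p.hBp
    rw [hb]
    exact Nat.one_le_iff_ne_zero.2 (by positivity)
  have hB2 : 2 ≤ Fintype.card A := by
    rw [hA]
    have h3 : 2 ≤ p.c := by
      have h := p.hLog
      omega
    calc 2 ≤ p.c := h3
      _ = p.c ^ 1 := (pow_one _).symm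
      _ ≤ p.c ^ 200 := Nat.pow_le_pow_right hc1 (by norm_num)
      _ ≤ p.B := p.N7
  have hC : p.C ≤ 2 ^ p.Lam := by
    have h := p.s1
    have h3 : 1 * p.C ≤ 4 * p.B * p.q ^ 2 * p.C := by
      apply Nat.mul_le_mul_right
      exact Nat.one_le_iff_ne_zero.2 (by positivity)
    omega
  have hM2 : 2 ≤ 2 ^ p.Lam := by
    calc 2 = 2 ^ 1 := (pow_one _).symm
      _ ≤ 2 ^ p.Lam := Nat.pow_le_pow_right (by norm_num) hLam
  have hK10 : 16 ≤ 2 ^ (10 * p.Lam) := by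
    calc 16 = 2 ^ 4 := by norm_num
      _ ≤ 2 ^ (10 * p.Lam) := Nat.pow_le_pow_right (by norm_num) (by omega)
  have hK4 : 16 ≤ 2 ^ (4 * p.Lam) := by
    calc 16 = 2 ^ 4 := by norm_num
      _ ≤ 2 ^ (4 * p.Lam) := Nat.pow_le_pow_right (by norm_num) (by omega)
  have hK8 : 16 * p.C ≤ 2 ^ (8 * p.Lam) := by
    have h3 : 16 ≤ 2 ^ (7 * p.Lam) := by
      calc 16 = 2 ^ 4 := by norm_num
        _ ≤ 2 ^ (7 * p.Lam) := Nat.pow_le_pow_right (by norm_num) (by omega)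
    calc 16 * p.C ≤ 2 ^ (7 * p.Lam) * 2 ^ p.Lam := Nat.mul_le_mul h3 hC
      _ = 2 ^ (8 * p.Lam) := by rw [← pow_add]; congr 1; ring
  have hK8' : 0 < 2 ^ (8 * p.Lam) := by positivity
  -- a label
  have hVcard : Fintype.card V = p.N := hT.card_V
  have hVpos : 0 < Fintype.card V := by rw [hVcard]; exact p.hN
  obtain ⟨v0⟩ : Nonempty V := Fintype.card_pos_iff.1 hVpos
  have hOm : (Om A H.TT).Nonempty := hVS7 O A H.TT 40 H.cs h2 hB2
  have hPsi : (Psi p H v0).Nonempty := hLB5 p P O V H v0 hVcard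
  set X : Finset (O → A) := Om A H.TT with hX
  set Y : Finset (Fin p.C → P → V) := Fintype.piFinset (fun _ : Fin p.C => Psi p H v0) with hY
  have hYcard : Y.card = (Psi p H v0).card ^ p.C := by
    rw [hY, Fintype.card_piFinset, Finset.prod_const, Finset.card_univ, Fintype.card_fin]
  have hYne : Y.Nonempty := by
    obtain ⟨ψ, hψ⟩ := hPsi
    exact ⟨fun _ => ψ, Fintype.mem_piFinset.2 fun _ => hψ⟩
  -- the copies one by one
  have hone : ∀ bad : (P → V) → Prop,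
      EXI_cnt (Psi p H v0) bad * 2 ^ (8 * p.Lam) ≤ (Psi p H v0).card →
      EXI_cnt Y (fun φ => ∃ j, bad (φ j)) * 16 ≤ Y.card := by
    intro bad hbad
    have h3 := prod_one (Psi p H v0) p.C (2 ^ (8 * p.Lam)) (fun _ => bad) (fun _ => hbad)
    rw [← hYcard] at h3
    exact EXI_arith _ _ _ _ hK8' hK8 (EXI_cnt_le Y _ _ _ _ h3)
  by_contra hno
  obtain ⟨l, hl⟩ : ∃ l : List ((O → A) × (Fin p.C → P → V) → Prop), l = [
      (fun x => ¬ H1 p H x.1),
      (fun x => ¬ H2 p H x.1),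
      (fun x => ¬ H3 p H x.1),
      (fun x => ¬ H4 p H x.1),
      (fun x => ¬ H6 p H x.1),
      (fun x => ∃ j, ¬ P1 p H T MM (x.2 j)),
      (fun x => H4 p H x.1 ∧ ∃ j, ¬ P2 p H x.1 MM (x.2 j)),
      (fun x => ∃ j, ¬ P3 p H x.1 (x.2 j)),
      (fun x => H3 p H x.1 ∧ ∃ j, ¬ P4 p H x.1 MM (x.2 j)),
      (fun x => H3 p H x.1 ∧ ∃ j, ¬ P4' p H x.1 MM (x.2 j)),
      (fun x => (∀ j, P1 p H T MM (x.2 j)) ∧ ∃ j, ¬ P5 p H x.1 T (x.2 j)),
      (fun x => (H1 p H x.1 ∧ H6 p H x.1) ∧ ¬ Rough p H x.1 T x.2),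
      (fun x => H2 p H x.1 ∧ ¬ Q2 p H x.1 T x.2),
      (fun x => (H2 p H x.1 ∧ H3 p H x.1) ∧ ¬ Q3 p H x.1 T x.2),
      (fun x => H3 p H x.1 ∧ ¬ Q4 p H x.1 T x.2)] := ⟨_, rfl⟩
  have hcov : ∀ x ∈ X ×ˢ Y, ∃ R ∈ l, R x := by
    intro x hx
    obtain ⟨hx1, hx2⟩ := Finset.mem_product.1 hx
    by_contra hnR
    push Not at hnR
    rw [hl] at hnR
    simp only [List.mem_cons, List.not_mem_nil, or_false, forall_eq_or_imp, forall_eq] at hnR
    obtain ⟨r1, r2, r3, r4, r5, r6, r7, r8, r9, r10, r11, r12, r13, r14, r15⟩ := hnR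
    have e1 : H1 p H x.1 := not_not.1 r1
    have e2 : H2 p H x.1 := not_not.1 r2
    have e3 : H3 p H x.1 := not_not.1 r3
    have e4 : H4 p H x.1 := not_not.1 r4
    have e5 : H6 p H x.1 := not_not.1 r5
    have e6 : ∀ j, P1 p H T MM (x.2 j) := fun j => by
      by_contra h
      exact r6 ⟨j, h⟩
    have e7 : ∀ j, P2 p H x.1 MM (x.2 j) := fun j => by
      by_contra h
      exact r7 ⟨e4, j, h⟩
    have e8 : ∀ j, P3 p H x.1 (x.2 j) := fun j => by
      by_contra h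
      exact r8 ⟨j, h⟩
    have e9 : ∀ j, P4 p H x.1 MM (x.2 j) := fun j => by
      by_contra h
      exact r9 ⟨e3, j, h⟩
    have e10 : ∀ j, P4' p H x.1 MM (x.2 j) := fun j => by
      by_contra h
      exact r10 ⟨e3, j, h⟩
    have e11 : ∀ j, P5 p H x.1 T (x.2 j) := fun j => by
      by_contra h
      exact r11 ⟨e6, j, h⟩
    have e12 : Rough p H x.1 T x.2 := by
      by_contra h
      exact r12 ⟨⟨e1, e5⟩, h⟩
    have e13 : Q2 p H x.1 T x.2 := by
      by_contra h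
      exact r13 ⟨e2, h⟩
    have e14 : Q3 p H x.1 T x.2 := by
      by_contra h
      exact r14 ⟨⟨e2, e3⟩, h⟩
    have e15 : Q4 p H x.1 T x.2 := by
      by_contra h
      exact r15 ⟨e3, h⟩
    have e0 : ∀ j, Bald p H (x.2 j) := fun j => by
      have h := Fintype.mem_piFinset.1 hx2 j
      exact (Finset.mem_filter.1 h).2.1
    exact hno ⟨x.1, x.2, ⟨hx1, e1, e2, e3, e4, e5⟩,
      ⟨fun j => ⟨e0 j, e6 j, e7 j, e8 j, e9 j, e10 j, e11 j⟩, e12, e13, e14, e15⟩⟩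
  have hbound := EXI_list (X ×ˢ Y) 16 l ?_
  · rw [EXI_true _ _ hcov, hl] at hbound
    have h4 : 0 < (X ×ˢ Y).card := Finset.card_pos.2 (hOm.product hYne)
    simp only [List.length_cons, List.length_nil] at hbound
    omega
  · intro R hR
    rw [hl] at hR
    simp only [List.mem_cons, List.not_mem_nil, or_false] at hR
    rcases hR with hR | hR | hR | hR | hR | hR | hR | hR | hR | hR | hR | hR | hR | hR | hR
    · rw [hR]
      exact EXI_fib2 X Y (fun v _ => ¬ H1 p H v) 16 fun _ _ =>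
        EXI_weak _ _ _ hK10
          (EXI_cnt_le _ _ _ _ _ (hHP1 p P O A H hA h2))
    · rw [hR]
      exact EXI_fib2 X Y (fun v _ => ¬ H2 p H v) 16 fun _ _ =>
        EXI_weak _ _ _ hK10
          (EXI_cnt_le _ _ _ _ _ (hHP2 p P O A H hA h2))
    · rw [hR]
      exact EXI_fib2 X Y (fun v _ => ¬ H3 p H v) 16 fun _ _ =>
        EXI_weak _ _ _ hK10
          (EXI_cnt_le _ _ _ _ _ (hHP3 p P O A H hA h2))
    · rw [hR]
      exact EXI_fib2 X Y (fun v _ => ¬ H4 p H v) 16 fun _ _ =>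
        EXI_weak _ _ _ hK10
          (EXI_cnt_le _ _ _ _ _ (hHP4 p P O A H hA h2))
    · rw [hR]
      exact EXI_fib2 X Y (fun v _ => ¬ H6 p H v) 16 fun _ _ =>
        EXI_weak _ _ _ hK10
          (EXI_cnt_le _ _ _ _ _ (hHP6 p P O A H hA h2))
    · rw [hR]
      exact EXI_fib1 X Y (fun _ φ => ∃ j, ¬ P1 p H T MM (φ j)) 16 fun _ _ =>
        hone (fun ψ => ¬ P1 p H T MM ψ) (EXI_cnt_le _ _ _ _ _ (hPP1 p P O V H T MM v0 hT))
    · rw [hR]
      refine EXI_fib1 X Y (fun v φ => H4 p H v ∧ ∃ j, ¬ P2 p H v MM (φ j)) 16 fun v _ => ?_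
      exact EXI_and _ _ _ _ _ fun hh => hone (fun ψ => ¬ P2 p H v MM ψ)
        (EXI_cnt_le _ _ _ _ _ (hPP2 p P O A V H v T MM v0 hA hT hh))
    · rw [hR]
      exact EXI_fib1 X Y (fun v φ => ∃ j, ¬ P3 p H v (φ j)) 16 fun v _ =>
        hone (fun ψ => ¬ P3 p H v ψ) (EXI_cnt_le _ _ _ _ _ (hPP3 p P O A V H v v0 hA hVcard))
    · rw [hR]
      refine EXI_fib1 X Y (fun v φ => H3 p H v ∧ ∃ j, ¬ P4 p H v MM (φ j)) 16 fun v _ => ?_
      exact EXI_and _ _ _ _ _ fun hh => hone (fun ψ => ¬ P4 p H v MM ψ)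
        (EXI_cnt_le _ _ _ _ _ (hPP4 p P O A V H v T MM v0 hA hT hh))
    · rw [hR]
      refine EXI_fib1 X Y (fun v φ => H3 p H v ∧ ∃ j, ¬ P4' p H v MM (φ j)) 16 fun v _ => ?_
      exact EXI_and _ _ _ _ _ fun hh => hone (fun ψ => ¬ P4' p H v MM ψ)
        (EXI_cnt_le _ _ _ _ _ (hPP4c p P O A V H v T MM v0 hA hT hh))
    · rw [hR]
      refine EXI_fib2 X Y (fun v φ => (∀ j, P1 p H T MM (φ j)) ∧ ∃ j, ¬ P5 p H v T (φ j)) 16
        fun φ _ => ?_
      exact EXI_and _ _ _ _ _ fun hh => EXI_arith _ _ _ _ hK8' hK8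
        (EXI_exists X p.C (2 ^ (8 * p.Lam)) (fun j v => ¬ P5 p H v T (φ j)) fun j =>
          EXI_cnt_le _ _ _ _ _ (hPP5 p P O A V H T MM (φ j) hA h2 hT (hh j)))
    · rw [hR]
      refine EXI_fib1 X Y (fun v φ => (H1 p H v ∧ H6 p H v) ∧ ¬ Rough p H v T φ) 16
        fun v _ => ?_
      refine EXI_and _ _ _ _ _ fun hh => EXI_weak _ _ _ hK4 ?_
      have h3 := EXI_cnt_le _ _ _ _ _ (hRG2 p P O A V H v T MM v0 hA hT hh.1 hh.2)
      rw [← hYcard] at h3
      exact h3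
    · rw [hR]
      refine EXI_fib1 X Y (fun v φ => H2 p H v ∧ ¬ Q2 p H v T φ) 16 fun v _ => ?_
      refine EXI_and _ _ _ _ _ fun hh => EXI_weak _ _ _ hK4 ?_
      have h3 := EXI_cnt_le _ _ _ _ _ (hQ2f p P O A V H v T MM v0 hA hT hh)
      rw [← hYcard] at h3
      exact h3
    · rw [hR]
      refine EXI_fib1 X Y (fun v φ => (H2 p H v ∧ H3 p H v) ∧ ¬ Q3 p H v T φ) 16
        fun v _ => ?_
      refine EXI_and _ _ _ _ _ fun hh => EXI_weak _ _ _ hK4 ?_
      have h3 := EXI_cnt_le _ _ _ _ _ (hQ3f p P O A V H v T MM v0 hA hT hh.1 hh.2)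
      rw [← hYcard] at h3
      exact h3
    · rw [hR]
      refine EXI_fib1 X Y (fun v φ => H3 p H v ∧ ¬ Q4 p H v T φ) 16 fun v _ => ?_
      refine EXI_and _ _ _ _ _ fun hh => EXI_weak _ _ _ hK4 ?_
      have h3 := EXI_cnt_le _ _ _ _ _ (hQ4f p P O A V H v T MM v0 hA hT hh)
      rw [← hYcard] at h3
      exact h3

end Pool.Agent.helper24.TG
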