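import Pool.Agent.helper24.TG.S4

set_option linter.all false
set_option autoImplicit false

/-!
Module QI2: many types with several points in an independent set are rare (MP_ce98d8_co).
-/

namespace Pool.Agent.helper24.TG

open Finset Classical
open Pool.Agent.helper11.Tight (nb eo mem_nb)

theorem QI2 (hQI : QI_stmt) : QI2_stmt := by
  intro p P O A V _ _ _ _ _ _ _ _ _ H v T MM v0 hA hT E0 hE0 k hk1 hk2
  have hB : 0 < p.B := by
    obtain ⟨b, hb⟩ := p.hBp
    rw [hb]
    positivity
  have hTy : E0.image Prod.fst ⊆ PA H := by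
    intro t ht
    obtain ⟨x, hx, rfl⟩ := Finset.mem_image.1 ht
    exact mem_PA.2 (mem_XA.1 (hE0 hx))
  have hcov : ((Psi p H v0).filter (fun φ => MultEv p H v T φ E0 k)) ⊆
      ((E0.image Prod.fst).powersetCard k).biUnion (fun J => (Psi p H v0).filter
        (fun φ => ∀ t ∈ J, ∀ t' ∈ J, ¬ T.Adj (φ t) (φ t'))) := by
    intro φ hφ
    obtain ⟨hφ1, S, hS, hpart, hind, hcard⟩ := Finset.mem_filter.1 hφ
    have h1 : S.card ≤ p.B * (S.image Prod.fst).card := by
      apply Finset.card_le_mul_card_image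
      intro t _
      have h2 : (S.filter (fun x => x.1 = t)).card ≤ (Finset.univ : Finset A).card := by
        apply Finset.card_le_card_of_injOn Prod.snd (fun _ _ => Finset.mem_univ _)
        intro x hx y hy hxy
        have hx1 := (Finset.mem_filter.1 (Finset.mem_coe.1 hx)).2
        have hy1 := (Finset.mem_filter.1 (Finset.mem_coe.1 hy)).2
        exact Prod.ext (hx1.trans hy1.symm) hxy
      rw [Finset.card_univ, hA] at h2
      exact h2
    have h2 : k ≤ (S.image Prod.fst).card :=
      Nat.le_of_mul_le_mul_left (hcard.trans h1) hB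
    obtain ⟨J, hJ, hJk⟩ := Finset.exists_subset_card_eq h2
    refine Finset.mem_biUnion.2 ⟨J, Finset.mem_powersetCard.2
      ⟨hJ.trans (Finset.image_subset_image hS), hJk⟩, Finset.mem_filter.2 ⟨hφ1, ?_⟩⟩
    intro t ht t' ht' hadj
    obtain ⟨x, hx, rfl⟩ := Finset.mem_image.1 (hJ ht)
    obtain ⟨y, hy, rfl⟩ := Finset.mem_image.1 (hJ ht')
    obtain ⟨x', hx', hxx', hne⟩ := hpart x hx
    have hc1 := hind x hx y hy hadj
    have hc2 := hind x' hx' y hy (by rw [← hxx']; exact hadj)
    exact hne (col_unique (col_symm hc1) (col_symm hc2) hxx')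
  have hsum : (((E0.image Prod.fst).powersetCard k).biUnion (fun J => (Psi p H v0).filter
        (fun φ => ∀ t ∈ J, ∀ t' ∈ J, ¬ T.Adj (φ t) (φ t')))).card * p.E ^ (k / 2) ≤
      ((E0.image Prod.fst).card).choose k * (Psi p H v0).card := by
    calc (((E0.image Prod.fst).powersetCard k).biUnion (fun J => (Psi p H v0).filter
        (fun φ => ∀ t ∈ J, ∀ t' ∈ J, ¬ T.Adj (φ t) (φ t')))).card * p.E ^ (k / 2)
        ≤ (∑ J ∈ (E0.image Prod.fst).powersetCard k, ((Psi p H v0).filter
        (fun φ => ∀ t ∈ J, ∀ t' ∈ J, ¬ T.Adj (φ t) (φ t'))).card) * p.E ^ (k / 2) :=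
          Nat.mul_le_mul_right _ Finset.card_biUnion_le
      _ = ∑ J ∈ (E0.image Prod.fst).powersetCard k, ((Psi p H v0).filter
        (fun φ => ∀ t ∈ J, ∀ t' ∈ J, ¬ T.Adj (φ t) (φ t'))).card * p.E ^ (k / 2) := by
          rw [Finset.sum_mul]
      _ ≤ ∑ J ∈ (E0.image Prod.fst).powersetCard k, (Psi p H v0).card := by
          apply Finset.sum_le_sum
          intro J hJ
          obtain ⟨hJ1, hJ2⟩ := Finset.mem_powersetCard.1 hJ
          have h := hQI p P O V H T MM v0 hT J (hJ1.trans hTy) (by rw [hJ2]; exact hk1)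
            (by rw [hJ2]; exact hk2)
          rw [hJ2] at h
          exact h
      _ = ((E0.image Prod.fst).card).choose k * (Psi p H v0).card := by
          rw [Finset.sum_const, Finset.card_powersetCard, smul_eq_mul]
  calc ((Psi p H v0).filter (fun φ => MultEv p H v T φ E0 k)).card * p.E ^ (k / 2)
      ≤ _ := Nat.mul_le_mul_right _ (Finset.card_le_card hcov)
    _ ≤ _ := hsum
    _ ≤ (E0.card).choose k * (Psi p H v0).card :=
        Nat.mul_le_mul_right _ (Nat.choose_le_choose k Finset.card_image_le)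

end Pool.Agent.helper24.TG
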