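import Pool.Agent.helper18.TG.WT1
import Pool.Agent.helper85.TG.VA1

/-!
# GNU project (MP_d11331_al), analytic part wt:5: mean squares
-/

namespace Pool.Agent.helper74.TG

open Finset ArithmeticFunction

/-- A mean square of a short exponential sum with separated frequencies. -/
theorem h18_mean_square {ι : Type*} [DecidableEq ι] (F : Finset ι) (h : ι → ℂ) (θ : ι → ℝ)
    (N : ℕ) (D : ℝ) (hD0 : 0 ≤ D) (hh : ∀ i ∈ F, ‖h i‖ ≤ 1)
    (hD : ∀ i ∈ F, ∀ j ∈ F, i ≠ j → ‖∑ x ∈ Ioc 0 N, ee (x * (θ i - θ j))‖ ≤ D) :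
    ∑ x ∈ Ioc 0 N, ‖∑ i ∈ F, h i * ee (θ i * x)‖ ^ 2 ≤
      N * ∑ i ∈ F, ‖h i‖ ^ 2 + (F.card : ℝ) ^ 2 * D := by
  have h1 : ((∑ x ∈ Ioc 0 N, ‖∑ i ∈ F, h i * ee (θ i * x)‖ ^ 2 : ℝ) : ℂ) =
      ∑ i ∈ F, ∑ j ∈ F, h i * (starRingEnd ℂ) (h j) * ∑ x ∈ Ioc 0 N, ee (x * (θ i - θ j)) := by
    push_cast
    have h2 : ∀ x ∈ Ioc 0 N, ((‖∑ i ∈ F, h i * ee (θ i * x)‖ : ℂ)) ^ 2 =
        ∑ i ∈ F, ∑ j ∈ F, h i * (starRingEnd ℂ) (h j) * ee (x * (θ i - θ j)) := by
      intro x _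
      rw [← Complex.mul_conj', map_sum, Finset.sum_mul_sum]
      refine Finset.sum_congr rfl fun i _ => Finset.sum_congr rfl fun j _ => ?_
      rw [map_mul, ← h85_ee_neg, show (x : ℝ) * (θ i - θ j) = θ i * x + -(θ j * x) by ring,
        h85_ee_add]
      ring
    rw [Finset.sum_congr rfl h2, Finset.sum_comm]
    refine Finset.sum_congr rfl fun i _ => ?_
    rw [Finset.sum_comm]
    refine Finset.sum_congr rfl fun j _ => ?_
    rw [Finset.mul_sum]
  have h3 : ∑ x ∈ Ioc 0 N, ‖∑ i ∈ F, h i * ee (θ i * x)‖ ^ 2 =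
      ‖((∑ x ∈ Ioc 0 N, ‖∑ i ∈ F, h i * ee (θ i * x)‖ ^ 2 : ℝ) : ℂ)‖ := by
    rw [Complex.norm_real, Real.norm_of_nonneg (by positivity)]
  rw [h3, h1]
  calc _ ≤ ∑ i ∈ F, ‖∑ j ∈ F, h i * (starRingEnd ℂ) (h j) * ∑ x ∈ Ioc 0 N, ee (x * (θ i - θ j))‖ :=
        norm_sum_le _ _
    _ ≤ ∑ i ∈ F, (N * ‖h i‖ ^ 2 + F.card * D) := by
        refine Finset.sum_le_sum fun i hi => ?_
        refine (norm_sum_le _ _).trans ?_
        rw [← Finset.add_sum_erase F _ hi]
        refine add_le_add ?_ ?_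
        · have : ∑ x ∈ Ioc 0 N, ee (x * (θ i - θ i)) = N := by
            simp [h85_ee_zero]
          rw [this, norm_mul, norm_mul, RCLike.norm_conj, Complex.norm_natCast]
          exact le_of_eq (by ring)
        · calc _ ≤ ∑ j ∈ F.erase i, D := by
                refine Finset.sum_le_sum fun j hj => ?_
                obtain ⟨hji, hj⟩ := Finset.mem_erase.1 hj
                rw [norm_mul, norm_mul, RCLike.norm_conj]
                have e1 : ‖h i‖ * ‖h j‖ ≤ 1 := by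
                  calc _ ≤ (1 : ℝ) * 1 := mul_le_mul (hh i hi) (hh j hj) (norm_nonneg _) zero_le_one
                    _ = 1 := one_mul 1
                calc _ ≤ 1 * D := mul_le_mul e1 (hD i hi j hj (Ne.symm hji)) (norm_nonneg _)
                      zero_le_one
                  _ = D := one_mul D
            _ = (F.erase i).card * D := by rw [Finset.sum_const, nsmul_eq_mul]
            _ ≤ F.card * D := by
                refine mul_le_mul_of_nonneg_right ?_ hD0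
                exact_mod_cast Finset.card_le_card (Finset.erase_subset i F)
    _ = _ := by
        rw [Finset.sum_add_distrib, Finset.mul_sum, Finset.sum_const, nsmul_eq_mul]
        ring

/-- Distinct fractions with denominators at most `Q` are `1 / Q ^ 2` apart modulo `1`. -/
theorem h18_spacing {Q : ℕ} {r s : Σ _ : ℕ, ℕ} (hr : r ∈ Fa Q) (hs : s ∈ Fa Q) (hrs : r ≠ s) :
    1 / (Q : ℝ) ^ 2 ≤ |((r.2 : ℝ) / r.1 - s.2 / s.1) - round ((r.2 : ℝ) / r.1 - s.2 / s.1)| := by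
  obtain ⟨q, a⟩ := r
  obtain ⟨q', a'⟩ := s
  simp only [Fa, mem_sigma, mem_Ioc, mem_filter, mem_range] at hr hs
  obtain ⟨⟨hq, hqQ⟩, ha, hc⟩ := hr
  obtain ⟨⟨hq', hqQ'⟩, ha', hc'⟩ := hs
  simp only
  generalize round ((a : ℝ) / q - a' / q') = k
  have hqr : (0 : ℝ) < q := by exact_mod_cast hq
  have hqr' : (0 : ℝ) < q' := by exact_mod_cast hq'
  set z : ℤ := a * q' - a' * q - k * (q * q') with hz
  have e1 : (a : ℝ) / q - a' / q' - k = z / (q * q') := by
    rw [hz]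
    push_cast
    field_simp
  have hz0 : z ≠ 0 := by
    intro h0
    have h1 : ((a : ℤ) * q' - a' * q) = k * (q * q') := by linarith
    have hk : k = 0 := by
      have b1 : (a : ℤ) * q' - a' * q < q * q' := by
        have : (a : ℤ) * q' < q * q' := by
          exact_mod_cast Nat.mul_lt_mul_of_pos_right ha hq'
        have : (0 : ℤ) ≤ (a' : ℤ) * q := by positivity
        linarith
      have b2 : -((q : ℤ) * q') < (a : ℤ) * q' - a' * q := by
        have : (a' : ℤ) * q < q' * q := by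
          exact_mod_cast Nat.mul_lt_mul_of_pos_right ha' hq
        have : (0 : ℤ) ≤ (a : ℤ) * q' := by positivity
        linarith
      have hpos : (0 : ℤ) < q * q' := by positivity
      rw [h1] at b1 b2
      have b3 : k < 1 := by nlinarith
      have b4 : -1 < k := by nlinarith
      omega
    rw [hk, zero_mul, sub_eq_zero] at h1
    have h2 : a * q' = a' * q := by exact_mod_cast h1
    have h3 : q ∣ q' := hc.symm.dvd_of_dvd_mul_left ⟨a', by rw [h2]; ring⟩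
    have h4 : q' ∣ q := hc'.symm.dvd_of_dvd_mul_left ⟨a, by rw [← h2]; ring⟩
    have h5 : q = q' := Nat.dvd_antisymm h3 h4
    subst h5
    have h6 : a = a' := Nat.eq_of_mul_eq_mul_right hq h2
    subst h6
    exact hrs rfl
  rw [e1, abs_div, abs_of_pos (mul_pos hqr hqr')]
  have h1 : (1 : ℝ) ≤ |(z : ℝ)| := by
    exact_mod_cast Int.one_le_abs hz0
  have hQ : (0 : ℝ) < Q := by
    have : 0 < Q := lt_of_lt_of_le hq hqQ
    exact_mod_cast this
  have h2 : (q : ℝ) * q' ≤ (Q : ℝ) ^ 2 := by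
    rw [sq]
    exact mul_le_mul (by exact_mod_cast hqQ) (by exact_mod_cast hqQ') hqr'.le hQ.le
  calc 1 / (Q : ℝ) ^ 2 ≤ 1 / (q * q') := one_div_le_one_div_of_le (by positivity) h2
    _ ≤ _ := div_le_div_of_nonneg_right h1 (by positivity)

theorem h18_gb_le {X β d : ℝ} (hd : 0 < d) (h : d ≤ |β - round β|) : gb X β ≤ 1 / (2 * d) := by
  have h0 : 0 < |β - round β| := lt_of_lt_of_le hd h
  have h1 : 1 / (2 * |β - round β|) ≤ 1 / (2 * d) :=
    one_div_le_one_div_of_le (by positivity) (by linarith)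
  refine le_trans ?_ h1
  unfold gb
  split_ifs with h2
  · rw [le_div_iff₀ (by positivity)]
    linarith
  · exact le_refl _

theorem h18_card_Fa (Q : ℕ) : (Fa Q).card ≤ Q ^ 2 := by
  rw [Fa, Finset.card_sigma]
  calc _ ≤ ∑ q ∈ Ioc 0 Q, Q := by
        refine Finset.sum_le_sum fun q hq => ?_
        refine (Finset.card_filter_le _ _).trans ?_
        rw [card_range]
        exact (mem_Ioc.1 hq).2
    _ = Q ^ 2 := by simp [sq]

theorem h18_sum_rpow (Q : ℕ) :
    ∑ q ∈ Ioc 0 Q, 1 / ((q : ℝ) ^ (3 / 4 : ℝ)) ≤ 4 * (Q : ℝ) ^ (1 / 4 : ℝ) := by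
  induction Q with
  | zero => simp
  | succ Q ih =>
    rw [← Finset.insert_Ioc_right_eq_Ioc_add_one (Nat.zero_le Q), Finset.sum_insert (by simp)]
    set u : ℝ := ((Q + 1 : ℕ) : ℝ) ^ (1 / 4 : ℝ) with hu
    set v : ℝ := (Q : ℝ) ^ (1 / 4 : ℝ) with hv
    have hu0 : 0 < u := by positivity
    have hv0 : 0 ≤ v := by positivity
    have hu4 : u ^ 4 = (Q : ℝ) + 1 := by
      rw [hu, ← Real.rpow_natCast, ← Real.rpow_mul (by positivity)]
      norm_num
    have hv4 : v ^ 4 = (Q : ℝ) := by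
      rw [hv, ← Real.rpow_natCast, ← Real.rpow_mul (by positivity)]
      norm_num
    have hu3 : (((Q + 1 : ℕ) : ℝ)) ^ (3 / 4 : ℝ) = u ^ 3 := by
      rw [hu, ← Real.rpow_natCast, ← Real.rpow_mul (by positivity)]
      norm_num
    have huv : v ≤ u := by
      rw [hu, hv]
      exact Real.rpow_le_rpow (by positivity) (by push_cast; linarith) (by norm_num)
    rw [hu3]
    have key : 1 / u ^ 3 ≤ 4 * (u - v) := by
      rw [div_le_iff₀ (by positivity)]
      have h1 : (u - v) * (u ^ 3 + u ^ 2 * v + u * v ^ 2 + v ^ 3) = 1 := by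
        have : u ^ 4 - v ^ 4 = 1 := by rw [hu4, hv4]; ring
        linear_combination this
      have h2 : u ^ 3 + u ^ 2 * v + u * v ^ 2 + v ^ 3 ≤ 4 * u ^ 3 := by
        have e1 : u ^ 2 * v ≤ u ^ 2 * u := mul_le_mul_of_nonneg_left huv (by positivity)
        have e2 : u * v ^ 2 ≤ u * u ^ 2 :=
          mul_le_mul_of_nonneg_left (pow_le_pow_left₀ hv0 huv 2) hu0.le
        have e3 : v ^ 3 ≤ u ^ 3 := pow_le_pow_left₀ hv0 huv 3
        nlinarith
      have h3 : 0 ≤ u - v := by linarith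
      nlinarith [mul_le_mul_of_nonneg_left h2 h3]
    linarith

open Classical in
theorem h18_sum_Hc (m c Q : ℕ) (hm : 0 < m) (h6 : 6 ∣ m) :
    ∑ r ∈ Fa Q, ‖Hc m c r.2 r.1‖ ^ 2 ≤ 4 * (Q : ℝ) ^ (1 / 4 : ℝ) := by
  refine le_trans ?_ (h18_sum_rpow Q)
  rw [Fa, Finset.sum_sigma]
  refine Finset.sum_le_sum fun q hq => ?_
  have hq0 : 0 < q := (mem_Ioc.1 hq).1
  have hφ : (0 : ℝ) < Nat.totient q := by exact_mod_cast Nat.totient_pos.2 hq0
  by_cases hgood : Nat.Coprime q m ∧ Squarefree q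
  · have h1 : ∀ a ∈ (range q).filter (fun a => Nat.Coprime a q), ‖Hc m c a q‖ ^ 2 ≤
        (1 / (Nat.totient q : ℝ)) ^ 2 := by
      intro a ha
      exact pow_le_pow_left₀ (norm_nonneg _) (Hc_bound m c a q hm hq0 (mem_filter.1 ha).2) 2
    calc _ ≤ ∑ a ∈ (range q).filter (fun a => Nat.Coprime a q), (1 / (Nat.totient q : ℝ)) ^ 2 :=
          Finset.sum_le_sum h1
      _ = 1 / (Nat.totient q : ℝ) := by
          rw [Finset.sum_const, nsmul_eq_mul]
          have : ((range q).filter (fun a => Nat.Coprime a q)).card = Nat.totient q := by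
            rw [Nat.totient]
            congr 1
            exact Finset.filter_congr fun a _ => Nat.coprime_comm
          rw [this]
          field_simp
      _ ≤ _ := by
          refine one_div_le_one_div_of_le (by positivity) ?_
          exact totient_lower q hgood.2 (Nat.Coprime.coprime_dvd_right h6 hgood.1)
  · have h1 : ∀ a ∈ (range q).filter (fun a => Nat.Coprime a q), ‖Hc m c a q‖ ^ 2 = 0 := by
      intro a ha
      have : ¬ Nat.Coprime q m ∨ ¬ Squarefree q := by tauto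
      rw [Hc_zero m c a q hm hq0 (mem_filter.1 ha).2 this]
      simp
    rw [Finset.sum_congr rfl h1]
    simp
    positivity

/-- wt:5 -/
theorem gm_sq (m c : ℕ) (hm : 0 < m) (h6 : 6 ∣ m) : ∃ N₀ : ℕ, ∀ N : ℕ, N₀ ≤ N →
    ∑ x ∈ Ioc 0 N, ‖gm m c ⌊Real.log N ^ 44⌋₊ x‖ ^ 2 ≤ N * Real.log N ^ 12 := by
  have h1 : ∀ᶠ x : ℝ in Filter.atTop, Real.log x ^ 264 ≤ x := by
    have := (Real.isLittleO_pow_log_id_atTop (n := 264)).bound (c := 1) one_pos
    filter_upwards [this, Filter.eventually_ge_atTop (1 : ℝ)] with x hx hx1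
    simp only [id, one_mul] at hx
    rw [Real.norm_of_nonneg (pow_nonneg (Real.log_nonneg hx1) _),
      Real.norm_of_nonneg (by linarith)] at hx
    exact hx
  have h2 : ∀ᶠ x : ℝ in Filter.atTop, 5 ≤ Real.log x :=
    Real.tendsto_log_atTop.eventually_ge_atTop 5
  obtain ⟨N₀, hN₀⟩ := Filter.eventually_atTop.1
    ((tendsto_natCast_atTop_atTop (R := ℝ)).eventually (h1.and h2))
  refine ⟨N₀, fun N hN => ?_⟩
  obtain ⟨hN1, hN2⟩ := hN₀ N hN
  set L : ℝ := Real.log N with hL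
  set Q : ℕ := ⌊L ^ 44⌋₊ with hQ
  have hL0 : 0 ≤ L := by linarith
  have hQL : (Q : ℝ) ≤ L ^ 44 := Nat.floor_le (by positivity)
  have hQ1 : 1 ≤ (Q : ℝ) := by
    have : 1 ≤ Q := by
      rw [hQ, Nat.one_le_floor_iff]
      exact one_le_pow₀ (by linarith)
    exact_mod_cast this
  have hD : ∀ r ∈ Fa Q, ∀ s ∈ Fa Q, r ≠ s →
      ‖∑ x ∈ Ioc 0 N, ee (x * ((r.2 : ℝ) / r.1 - s.2 / s.1))‖ ≤ (Q : ℝ) ^ 2 / 2 := by
    intro r hr s hs hrs
    refine (geom_bound 0 N (Nat.zero_le N) _).trans ?_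
    refine (h18_gb_le (d := 1 / (Q : ℝ) ^ 2) (by positivity) (h18_spacing hr hs hrs)).trans ?_
    apply le_of_eq
    field_simp
  have hH : ∀ r ∈ Fa Q, ‖Hc m c r.2 r.1‖ ≤ 1 := by
    intro r hr
    simp only [Fa, mem_sigma, mem_Ioc, mem_filter, mem_range] at hr
    refine (Hc_bound m c r.2 r.1 hm hr.1.1 hr.2.2).trans ?_
    have : 1 ≤ Nat.totient r.1 := Nat.totient_pos.2 hr.1.1
    rw [div_le_one (by exact_mod_cast this)]
    exact_mod_cast this
  have key := h18_mean_square (Fa Q) (fun r => Hc m c r.2 r.1) (fun r => (r.2 : ℝ) / r.1) N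
    ((Q : ℝ) ^ 2 / 2) (by positivity) hH hD
  have e1 : ∑ x ∈ Ioc 0 N, ‖gm m c Q x‖ ^ 2 =
      ∑ x ∈ Ioc 0 N, ‖∑ r ∈ Fa Q, Hc m c r.2 r.1 * ee ((r.2 : ℝ) / r.1 * x)‖ ^ 2 := by
    refine Finset.sum_congr rfl fun x _ => ?_
    congr 2
    rw [gm]
    refine Finset.sum_congr rfl fun r _ => ?_
    congr 2
    ring
  rw [e1]
  refine key.trans ?_
  have hcard : ((Fa Q).card : ℝ) ≤ (Q : ℝ) ^ 2 := by exact_mod_cast h18_card_Fa Q
  have e2 : ((Fa Q).card : ℝ) ^ 2 * ((Q : ℝ) ^ 2 / 2) ≤ N := by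
    calc _ ≤ ((Q : ℝ) ^ 2) ^ 2 * ((Q : ℝ) ^ 2 / 2) :=
          mul_le_mul_of_nonneg_right (pow_le_pow_left₀ (by positivity) hcard 2) (by positivity)
      _ ≤ (Q : ℝ) ^ 6 := by nlinarith [show (0 : ℝ) ≤ (Q : ℝ) ^ 6 by positivity]
      _ ≤ (L ^ 44) ^ 6 := pow_le_pow_left₀ (by positivity) hQL 6
      _ = L ^ 264 := by ring
      _ ≤ N := hN1
  have e3 : ∑ r ∈ Fa Q, ‖Hc m c r.2 r.1‖ ^ 2 ≤ 4 * L ^ 11 := by
    refine (h18_sum_Hc m c Q hm h6).trans ?_
    have : (Q : ℝ) ^ (1 / 4 : ℝ) ≤ L ^ 11 := by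
      calc (Q : ℝ) ^ (1 / 4 : ℝ) ≤ (L ^ 44) ^ (1 / 4 : ℝ) :=
            Real.rpow_le_rpow (by positivity) hQL (by norm_num)
        _ = L ^ 11 := by
            rw [← Real.rpow_natCast, ← Real.rpow_mul hL0, ← Real.rpow_natCast]
            norm_num
    linarith
  have hNn : (0 : ℝ) ≤ N := Nat.cast_nonneg N
  have e4 : 4 * L ^ 11 + 1 ≤ L ^ 12 := by
    have : 1 ≤ L ^ 11 := one_le_pow₀ (by linarith)
    nlinarith
  calc _ ≤ (N : ℝ) * (4 * L ^ 11) + N := add_le_add (mul_le_mul_of_nonneg_left e3 hNn) e2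
    _ = N * (4 * L ^ 11 + 1) := by ring
    _ ≤ N * L ^ 12 := mul_le_mul_of_nonneg_left e4 hNn

/-- wt:5 -/
theorem fw_sq (m c : ℕ) (hm : 0 < m) : ∃ N₀ : ℕ, ∀ N : ℕ, N₀ ≤ N →
    ∑ x ∈ Ioc 0 N, ‖(fw m c x : ℂ)‖ ^ 2 ≤ N * Real.log N ^ 12 := by
  have h2 : ∀ᶠ x : ℝ in Filter.atTop, 2 ≤ Real.log x :=
    Real.tendsto_log_atTop.eventually_ge_atTop 2
  obtain ⟨N₀, hN₀⟩ := Filter.eventually_atTop.1
    ((tendsto_natCast_atTop_atTop (R := ℝ)).eventually h2)
  refine ⟨max N₀ (m + c), fun N hN => ?_⟩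
  have hN2 := hN₀ N ((le_max_left _ _).trans hN)
  have hNm : m + c ≤ N := (le_max_right _ _).trans hN
  have hNpos : 0 < N := by omega
  set L : ℝ := Real.log N with hL
  have hb : ∀ x ∈ Ioc 0 N, ‖(fw m c x : ℂ)‖ ^ 2 ≤ (2 * L) ^ 2 := by
    intro x hx
    obtain ⟨hx0, hxN⟩ := mem_Ioc.1 hx
    refine pow_le_pow_left₀ (norm_nonneg _) ?_ 2
    rw [Complex.norm_real, fw, Real.norm_eq_abs, abs_mul]
    have e1 : |(Nat.totient m / m : ℝ)| ≤ 1 := by
      rw [abs_of_nonneg (by positivity), div_le_one (by exact_mod_cast hm)]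
      exact_mod_cast Nat.totient_le m
    have e2 : |if (m * x + c).Prime then Real.log (m * x + c : ℕ) else 0| ≤ 2 * L := by
      split_ifs with hp
      · have h1 : (1 : ℝ) ≤ (m * x + c : ℕ) := by
          have : 1 ≤ m * x + c := hp.one_lt.le
          exact_mod_cast this
        rw [abs_of_nonneg (Real.log_nonneg h1)]
        have h3 : ((m * x + c : ℕ) : ℝ) ≤ (N : ℝ) ^ 2 := by
          have : m * x + c ≤ N ^ 2 := by
            have a1 : m * x ≤ m * N := Nat.mul_le_mul_left m hxN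
            have a2 : c ≤ c * N := Nat.le_mul_of_pos_right c hNpos
            have a3 : (m + c) * N ≤ N * N := Nat.mul_le_mul_right N hNm
            nlinarith
          exact_mod_cast this
        calc Real.log ((m * x + c : ℕ) : ℝ) ≤ Real.log ((N : ℝ) ^ 2) :=
              Real.log_le_log (by linarith) h3
          _ = 2 * L := by rw [Real.log_pow, hL]; norm_num
      · rw [abs_zero]; linarith
    calc _ ≤ 1 * (2 * L) := mul_le_mul e1 e2 (abs_nonneg _) zero_le_one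
      _ = 2 * L := one_mul _
  calc _ ≤ ∑ x ∈ Ioc 0 N, (2 * L) ^ 2 := Finset.sum_le_sum hb
    _ = N * (2 * L) ^ 2 := by rw [Finset.sum_const, nsmul_eq_mul]; simp
    _ ≤ N * L ^ 12 := by
        refine mul_le_mul_of_nonneg_left ?_ (Nat.cast_nonneg N)
        have h3 : (4 : ℝ) ≤ L ^ 10 := by
          calc (4 : ℝ) ≤ 2 ^ 10 := by norm_num
            _ ≤ L ^ 10 := pow_le_pow_left₀ (by norm_num) hN2 10
        nlinarith [sq_nonneg L]

end Pool.Agent.helper74.TG
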